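import Pool.Agent.H86.CN.SM1C

/-! The first moment over the fundamental discriminants. -/

set_option autoImplicit false

namespace Pool.Agent.H86.CN

open Finset Pool.Agent.H31.CN
open scoped Real

/-- powers smaller than one -/
theorem ev_pow {e K δ : ℝ} (he : e < 1) (hδ : 0 < δ) (hK : 0 ≤ K) :
    ∀ᶠ X : ℝ in Filter.atTop, K * X ^ e ≤ δ * X := by
  have h1 := tendsto_rpow_neg_atTop (show 0 < 1 - e by linarith)
  have h2 : ∀ᶠ X : ℝ in Filter.atTop, X ^ (-(1 - e)) < δ / (K + 1) :=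
    h1.eventually (gt_mem_nhds (by positivity))
  filter_upwards [h2, Filter.eventually_gt_atTop (0 : ℝ)] with X hX hX0
  have h3 : X ^ e = X * X ^ (-(1 - e)) := by
    have h4 : e = 1 + -(1 - e) := by ring
    nth_rewrite 1 [h4]
    rw [Real.rpow_add hX0, Real.rpow_one]
  rw [h3]
  have h4 : X ^ (-(1 - e)) * (K + 1) < δ := (lt_div_iff₀ (by positivity)).1 hX
  have h5 : 0 < X ^ (-(1 - e)) := by positivity
  have h6 : K * X ^ (-(1 - e)) ≤ δ := by nlinarith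
  calc K * (X * X ^ (-(1 - e))) = K * X ^ (-(1 - e)) * X := by ring
    _ ≤ δ * X := mul_le_mul_of_nonneg_right h6 hX0.le

/-- powers smaller than one with logarithms -/
theorem ev_log {e K δ : ℝ} (he : e < 1) (hδ : 0 < δ) (hK : 0 ≤ K) :
    ∀ᶠ X : ℝ in Filter.atTop, K * (X ^ e * (1 + Real.log X) ^ 2) ≤ δ * X := by
  obtain ⟨s, hs⟩ : ∃ s : ℝ, s = (1 - e) / 4 := ⟨_, rfl⟩
  have hs0 : 0 < s := by rw [hs]; linarith
  filter_upwards [ev_pow (e := e + 2 * s) (K := K * (1 + 1 / s) ^ 2) (δ := δ)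
    (by rw [hs]; linarith) hδ (by positivity), Filter.eventually_ge_atTop (1 : ℝ)] with X hX hX1
  have hX0 : 0 < X := by linarith
  have h1 : Real.log X ≤ X ^ s / s := Real.log_le_rpow_div hX0.le hs0
  have h2 : 1 ≤ X ^ s := Real.one_le_rpow hX1 hs0.le
  have h3 : 1 + Real.log X ≤ (1 + 1 / s) * X ^ s := by
    have : (1 + 1 / s) * X ^ s = X ^ s + X ^ s / s := by ring
    linarith
  have h4 : 0 ≤ 1 + Real.log X := by
    have := Real.log_nonneg hX1
    linarith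
  have h5 : (1 + Real.log X) ^ 2 ≤ ((1 + 1 / s) * X ^ s) ^ 2 := pow_le_pow_left₀ h4 h3 2
  have h6 : X ^ (e + 2 * s) = X ^ e * (X ^ s) ^ 2 := by
    rw [Real.rpow_add hX0, ← Real.rpow_natCast (X ^ s) 2, ← Real.rpow_mul hX0.le]
    congr 2
    push_cast
    ring
  calc K * (X ^ e * (1 + Real.log X) ^ 2) ≤ K * (X ^ e * ((1 + 1 / s) * X ^ s) ^ 2) :=
        mul_le_mul_of_nonneg_left (mul_le_mul_of_nonneg_left h5 (by positivity)) hK
    _ = K * (1 + 1 / s) ^ 2 * X ^ (e + 2 * s) := by rw [h6]; ring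
    _ ≤ δ * X := hX

theorem pf_SM1 (hPZ2 : T_PZ2) (hCHS : T_CHS) (hMU3 : T_MU3) : T_SM1 := by
  intro G η hη hG h0 P N θ ε hP hN h2N hNs hθ hθ1 hε
  obtain ⟨KG, hKG, hKG1, -⟩ := weight_bd hG h0
  obtain ⟨K1, hK1, hcnt⟩ := count_bd hCHS hG h0
  obtain ⟨K2, hK2, herr⟩ := err_bd hCHS hG h0 P hN hNs θ hθ hθ1
  obtain ⟨K3, hK3, hmain⟩ := main_bd hMU3 P N θ η hP hN hNs hθ hη
  obtain ⟨X1, hpz⟩ := hPZ2 P N θ hN h2N hNs hθ hθ1 η hη
  obtain ⟨V, hV⟩ : ∃ V : ℝ, V = P.eval 1 + 1 / (2 * θ) * P.derivative.eval 1 := ⟨_, rfl⟩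
  have e1 := Filter.eventually_ge_atTop (max X1 (max 1 (4 * KG / ε)))
  have e2 := ev_pow (e := 3 / 4) (K := |V| * K1) (δ := ε / 4) (by norm_num) (by positivity)
    (by positivity)
  have e3 := ev_log (e := θ + 3 / 4) (K := K2) (δ := ε / 4) (by linarith) (by positivity) hK2.le
  have e4 : ∀ᶠ X : ℝ in Filter.atTop, 2 ≤ X ^ θ :=
    (tendsto_rpow_atTop hθ).eventually_ge_atTop 2
  have e5 : ∀ᶠ X : ℝ in Filter.atTop, 4 * KG * K3 / ε ≤ Real.log (X ^ θ) :=
    (Real.tendsto_log_atTop.comp (tendsto_rpow_atTop hθ)).eventually_ge_atTop _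
  obtain ⟨X₀, hX₀⟩ := Filter.eventually_atTop.1 (e1.and (e2.and (e3.and (e4.and e5))))
  refine ⟨X₀, fun X hX => ?_⟩
  obtain ⟨f1, f2, f3, f4, f5⟩ := hX₀ X hX
  have hXX1 : X1 ≤ X := (le_max_left _ _).trans f1
  have hX1 : 1 ≤ X := ((le_max_left _ _).trans (le_max_right _ _)).trans f1
  have hXK : 4 * KG / ε ≤ X := ((le_max_right _ _).trans (le_max_right _ _)).trans f1
  have hX0 : 0 < X := by linarith
  have hKGX : KG ≤ ε / 4 * X := by
    rw [div_le_iff₀ hε] at hXK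
    linarith
  have hlM : 0 < Real.log (X ^ θ) := Real.log_pos (by linarith)
  -- the sum with the explicit formula
  obtain ⟨S, hS⟩ : ∃ S : ℕ → ℝ, S = fun D : ℕ => ∑ m ∈ Icc 1 ⌊X ^ θ⌋₊, ∑ n ∈ N.divisors,
      cm P (X ^ θ) N m / m * (∏ p ∈ m.primeFactors, (1 + (chi p D : ℝ))) *
          (∏ p ∈ N.primeFactors, if p ∣ n then -((1 + (chi p D : ℝ)) / p) else
            1 + (chi p D : ℝ) / p) *
          (Real.log (Real.sqrt D / (n * m)) + c0) := ⟨_, rfl⟩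
  obtain ⟨I, hI⟩ : ∃ I : ℕ → ℝ, I = fun D : ℕ => ∑ m ∈ Icc 1 ⌊X ^ θ⌋₊, ∑ n ∈ N.divisors,
      cm P (X ^ θ) N m / m * (cf N n ∅ *
        (Real.log D / 2 + (c0 - (Real.log n + Real.log m)))) := ⟨_, rfl⟩
  have hD : ∀ D ∈ fam X, (D : ℝ) ≤ X ∧ 1 ≤ D ∧ D % 4 = 3 ∧ Squarefree D := by
    intro D hD
    obtain ⟨h1, h2⟩ := mem_fam.1 hD
    exact ⟨(Nat.le_floor_iff hX0.le).1 h1, by have := h2.1; omega, h2.2.1, h2.2.2⟩
  have hGD : ∀ D : ℕ, G (D / X) ≠ 0 → η * X ≤ D := by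
    intro D h
    by_contra h2
    apply h
    refine h0 _ fun h3 => h2 ?_
    exact (le_div_iff₀ hX0).1 h3.1
  have hcard := fam_card_le hX0.le
  -- first error
  have g1 : |∑ D ∈ fam X, G (D / X) * (Zc (SD (X ^ θ) N) (CD P (X ^ θ) N D)
      (1, 1, ((D : ℤ) + 1) / 4) - S D)| ≤ ε / 4 * X := by
    have h1 : ∀ D ∈ fam X, |G (D / X) * (Zc (SD (X ^ θ) N) (CD P (X ^ θ) N D)
        (1, 1, ((D : ℤ) + 1) / 4) - S D)| ≤ KG * X ^ (-1 : ℝ) := by
      intro D hDm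
      obtain ⟨h2, h3, h4, h5⟩ := hD D hDm
      rw [abs_mul]
      by_cases h6 : G (D / X) = 0
      · rw [h6, abs_zero, zero_mul]
        positivity
      · refine mul_le_mul (hKG1 _) ?_ (abs_nonneg _) hKG.le
        rw [hS]
        exact hpz X hXX1 D (hGD D h6) h2 h4 h5
    refine (abs_sum_le_sum_abs _ _).trans ((sum_le_sum h1).trans ?_)
    rw [sum_const, nsmul_eq_mul, Real.rpow_neg_one]
    have h2 : ((fam X).card : ℝ) * (KG * X⁻¹) ≤ X * (KG * X⁻¹) :=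
      mul_le_mul_of_nonneg_right hcard (by positivity)
    have h3 : X * (KG * X⁻¹) = KG := by field_simp
    linarith
  -- second error
  have g2 : |∑ D ∈ fam X, G (D / X) * S D - ∑ D ∈ fam X, G (D / X) * I D| ≤ ε / 4 * X := by
    refine le_trans (le_of_eq ?_) ((herr X hX1 f4).trans f3)
    congr 1
    have h1 : ∑ D ∈ fam X, G (D / X) * S D = ∑ m ∈ Icc 1 ⌊X ^ θ⌋₊, ∑ n ∈ N.divisors,
        cm P (X ^ θ) N m / m * ∑ D ∈ fam X, G (D / X) *
          (Real.log D / 2 + (c0 - (Real.log n + Real.log m))) *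
          ((∏ p ∈ m.primeFactors, (1 + (chi p D : ℝ))) *
            ∏ p ∈ N.primeFactors, if p ∣ n then -((1 + (chi p D : ℝ)) / p) else
              1 + (chi p D : ℝ) / p) := by
      rw [hS]
      simp only [mul_sum]
      rw [sum_comm]
      refine sum_congr rfl fun m hm => ?_
      rw [sum_comm]
      refine sum_congr rfl fun n hn => sum_congr rfl fun D hDm => ?_
      rw [log_split (hD D hDm).2.1 (Nat.pos_of_mem_divisors hn) (mem_Icc.1 hm).1]
      ring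
    have h2 : ∑ D ∈ fam X, G (D / X) * I D = ∑ m ∈ Icc 1 ⌊X ^ θ⌋₊, ∑ n ∈ N.divisors,
        cm P (X ^ θ) N m / m * (cf N n ∅ * ∑ D ∈ fam X, G (D / X) *
            (Real.log D / 2 + (c0 - (Real.log n + Real.log m)))) := by
      rw [hI]
      simp only [mul_sum]
      rw [sum_comm]
      refine sum_congr rfl fun m hm => ?_
      rw [sum_comm]
      refine sum_congr rfl fun n hn => sum_congr rfl fun D hDm => ?_
      ring
    rw [h1, h2, ← sum_sub_distrib]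
    refine sum_congr rfl fun m _ => ?_
    rw [← sum_sub_distrib]
    refine sum_congr rfl fun n _ => ?_
    rw [mul_sub]
  -- third error
  have g3 : |∑ D ∈ fam X, G (D / X) * (I D - V)| ≤ ε / 4 * X := by
    have h1 : ∀ D ∈ fam X, |G (D / X) * (I D - V)| ≤ KG * (K3 / Real.log (X ^ θ)) := by
      intro D hDm
      obtain ⟨h2, h3, h4, h5⟩ := hD D hDm
      rw [abs_mul]
      by_cases h6 : G (D / X) = 0
      · rw [h6, abs_zero, zero_mul]
        positivity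
      · refine mul_le_mul (hKG1 _) ?_ (abs_nonneg _) hKG.le
        rw [hI, hV]
        exact hmain X hX1 f4 D (hGD D h6) h2
    refine (abs_sum_le_sum_abs _ _).trans ((sum_le_sum h1).trans ?_)
    rw [sum_const, nsmul_eq_mul]
    have h2 : KG * (K3 / Real.log (X ^ θ)) ≤ ε / 4 := by
      rw [div_le_iff₀ hε] at f5
      rw [← mul_div_assoc, div_le_iff₀ hlM]
      linarith
    calc ((fam X).card : ℝ) * (KG * (K3 / Real.log (X ^ θ))) ≤ X * (ε / 4) :=
          mul_le_mul hcard h2 (by positivity) hX0.le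
      _ = ε / 4 * X := mul_comm _ _
  -- fourth error
  have g4 : |V * (∑ D ∈ fam X, G (D / X) - 2 / π ^ 2 * (X * ∫ u in Set.Ioi (0 : ℝ), G u))| ≤
      ε / 4 * X := by
    rw [abs_mul]
    refine (mul_le_mul_of_nonneg_left (hcnt X hX1) (abs_nonneg V)).trans ?_
    rw [← mul_assoc]
    exact f2
  have hsplit : (∑ D ∈ fam X, G (D / X) *
          Zc (SD (X ^ θ) N) (CD P (X ^ θ) N D) (1, 1, ((D : ℤ) + 1) / 4)) -
        X * (∫ u in Set.Ioi (0 : ℝ), G u) * (2 / π ^ 2 *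
          (P.eval 1 + 1 / (2 * θ) * P.derivative.eval 1)) =
      (∑ D ∈ fam X, G (D / X) * (Zc (SD (X ^ θ) N) (CD P (X ^ θ) N D)
        (1, 1, ((D : ℤ) + 1) / 4) - S D)) +
      (∑ D ∈ fam X, G (D / X) * S D - ∑ D ∈ fam X, G (D / X) * I D) +
      (∑ D ∈ fam X, G (D / X) * (I D - V)) +
      V * (∑ D ∈ fam X, G (D / X) - 2 / π ^ 2 * (X * ∫ u in Set.Ioi (0 : ℝ), G u)) := by
    rw [← hV]
    simp only [mul_sub, sum_sub_distrib, ← sum_mul]
    ring
  rw [hsplit]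
  refine (abs_add_le _ _).trans ?_
  refine (add_le_add ((abs_add_le _ _).trans (add_le_add ((abs_add_le _ _).trans
    (add_le_add g1 g2)) g3)) g4).trans (le_of_eq (by ring))

end Pool.Agent.H86.CN
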