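import Pool.Agent.H31.CN.T4
import Pool.Agent.H49.CN.CHS
import Pool.Agent.H50.CN.PER

/-! The first moment, part 1: partial summation. -/

set_option autoImplicit false

namespace Pool.Agent.H86.CN

open Finset Pool.Agent.H31.CN
open scoped Real

/-- partial summation -/
theorem abel (g h : ℕ → ℝ) (n : ℕ) {B : ℝ} (hB : ∀ k ≤ n + 1, |∑ i ∈ range k, h i| ≤ B) :
    |∑ i ∈ range (n + 1), g i * h i| ≤ B * (|g n| + ∑ i ∈ range n, |g (i + 1) - g i|) := by
  have h1 := sum_range_by_parts g h (n + 1)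
  simp only [smul_eq_mul, Nat.add_sub_cancel] at h1
  rw [h1]
  refine (abs_sub _ _).trans ?_
  rw [mul_add, abs_mul]
  refine add_le_add ?_ ?_
  · rw [mul_comm]
    exact mul_le_mul_of_nonneg_right (hB _ le_rfl) (abs_nonneg _)
  · refine (abs_sum_le_sum_abs _ _).trans ?_
    rw [mul_sum]
    refine sum_le_sum fun i hi => ?_
    rw [abs_mul, mul_comm]
    exact mul_le_mul_of_nonneg_right (hB _ (by have := mem_range.1 hi; omega)) (abs_nonneg _)

/-- membership in the family -/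
def Fm (D : ℕ) : Prop := 3 < D ∧ D % 4 = 3 ∧ Squarefree D

theorem mem_fam {X : ℝ} {D : ℕ} : D ∈ fam X ↔ D ≤ ⌊X⌋₊ ∧ Fm D := by
  unfold fam Fm
  rw [mem_filter, mem_Icc]
  constructor
  · rintro ⟨⟨_, h2⟩, h3⟩
    exact ⟨h2, h3⟩
  · rintro ⟨h2, h3⟩
    exact ⟨⟨by omega, h2⟩, h3⟩

open Classical in
theorem sum_fam (X : ℝ) (f : ℕ → ℝ) :
    ∑ D ∈ fam X, f D = ∑ D ∈ range (⌊X⌋₊ + 1), if Fm D then f D else 0 := by
  rw [← sum_filter]
  refine sum_congr ?_ fun _ _ => rfl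
  ext D
  rw [mem_fam, mem_filter, mem_range]
  constructor
  · rintro ⟨h1, h2⟩
    exact ⟨by omega, h2⟩
  · rintro ⟨h1, h2⟩
    exact ⟨by omega, h2⟩

theorem fam_card_le {X : ℝ} (hX : 0 ≤ X) : ((fam X).card : ℝ) ≤ X := by
  have h1 : (fam X).card ≤ ⌊X⌋₊ := by
    refine (card_filter_le _ _).trans ?_
    rw [Nat.card_Icc]
    omega
  calc ((fam X).card : ℝ) ≤ (⌊X⌋₊ : ℝ) := by exact_mod_cast h1
    _ ≤ X := Nat.floor_le hX

section smooth
variable {G : ℝ → ℝ} {η : ℝ}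

/-- bounds for the weight -/
theorem weight_bd (hG : ContDiff ℝ (⊤ : ℕ∞) G)
    (h0 : ∀ u, u ∉ Set.Icc η 1 → G u = 0) :
    ∃ K : ℝ, 0 < K ∧ (∀ u, |G u| ≤ K) ∧ ∀ u v, |G u - G v| ≤ K * |u - v| := by
  have hc : HasCompactSupport G := HasCompactSupport.intro isCompact_Icc h0
  obtain ⟨C, hC⟩ := ContDiff.lipschitzWith_of_hasCompactSupport hc hG (by simp)
  obtain ⟨K, hK⟩ := hc.exists_bound_of_continuous hG.continuous
  refine ⟨max (C : ℝ) K + 1, ?_, fun u => ?_, fun u v => ?_⟩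
  · have : (0 : ℝ) ≤ C := C.2
    have := le_max_left (C : ℝ) K
    linarith
  · have h1 := hK u
    rw [Real.norm_eq_abs] at h1
    have := le_max_right (C : ℝ) K
    linarith
  · have h1 := hC.dist_le_mul u v
    rw [Real.dist_eq, Real.dist_eq] at h1
    refine h1.trans (mul_le_mul_of_nonneg_right ?_ (abs_nonneg _))
    have := le_max_left (C : ℝ) K
    linarith

/-- the variation of the weight with a logarithm -/
theorem var_bd {K : ℝ} (hK : 0 ≤ K) (hK1 : ∀ u, |G u| ≤ K)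
    (hK2 : ∀ u v, |G u - G v| ≤ K * |u - v|) {X : ℝ} (hX : 1 ≤ X) (c : ℝ) :
    (|G ((⌊X⌋₊ : ℕ) / X) * (Real.log (⌊X⌋₊ : ℕ) / 2 + c)| +
      ∑ i ∈ range ⌊X⌋₊, |G ((i + 1 : ℕ) / X) * (Real.log (i + 1 : ℕ) / 2 + c) -
        G (i / X) * (Real.log i / 2 + c)|) ≤ 2 * K * (Real.log X + |c|) := by
  have hX0 : 0 < X := by linarith
  have hfl : (⌊X⌋₊ : ℝ) ≤ X := Nat.floor_le hX0.le
  have hlog : ∀ i : ℕ, i ≤ ⌊X⌋₊ → 0 ≤ Real.log i ∧ Real.log i ≤ Real.log X := by
    intro i hi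
    rcases Nat.eq_zero_or_pos i with h | h
    · rw [h, Nat.cast_zero, Real.log_zero]
      exact ⟨le_rfl, Real.log_nonneg hX⟩
    · have h1 : (1 : ℝ) ≤ i := by exact_mod_cast h
      have h2 : (i : ℝ) ≤ X := le_trans (by exact_mod_cast hi) hfl
      exact ⟨Real.log_nonneg h1, Real.log_le_log (by linarith) h2⟩
  have hL : 0 ≤ Real.log X := Real.log_nonneg hX
  have h1 : |G ((⌊X⌋₊ : ℕ) / X) * (Real.log (⌊X⌋₊ : ℕ) / 2 + c)| ≤
      K * (Real.log X / 2 + |c|) := by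
    rw [abs_mul]
    refine mul_le_mul (hK1 _) ?_ (abs_nonneg _) hK
    refine (abs_add_le _ _).trans (add_le_add ?_ le_rfl)
    obtain ⟨h2, h3⟩ := hlog _ le_rfl
    rw [abs_of_nonneg (by linarith)]
    linarith
  have h2 : ∀ i ∈ range ⌊X⌋₊, |G ((i + 1 : ℕ) / X) * (Real.log (i + 1 : ℕ) / 2 + c) -
        G (i / X) * (Real.log i / 2 + c)| ≤ K / X * (Real.log X / 2 + |c|) +
        K / 2 * (Real.log (i + 1 : ℕ) - Real.log i) := by
    intro i hi
    have hi' := mem_range.1 hi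
    obtain ⟨h3, h4⟩ := hlog (i + 1) (by omega)
    obtain ⟨h5, h6⟩ := hlog i (by omega)
    have h7 : Real.log i ≤ Real.log (i + 1 : ℕ) := by
      rcases Nat.eq_zero_or_pos i with h | h
      · rw [h, Nat.cast_zero, Real.log_zero]
        simp
      · have h1 : (0 : ℝ) < i := by exact_mod_cast h
        refine Real.log_le_log h1 ?_
        push_cast
        linarith
    have h8 : G ((i + 1 : ℕ) / X) * (Real.log (i + 1 : ℕ) / 2 + c) -
        G (i / X) * (Real.log i / 2 + c) =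
        (G ((i + 1 : ℕ) / X) - G (i / X)) * (Real.log (i + 1 : ℕ) / 2 + c) +
        G (i / X) * ((Real.log (i + 1 : ℕ) - Real.log i) / 2) := by ring
    rw [h8]
    refine (abs_add_le _ _).trans (add_le_add ?_ ?_)
    · rw [abs_mul]
      refine mul_le_mul ?_ ?_ (abs_nonneg _) (by positivity)
      · refine (hK2 _ _).trans (le_of_eq ?_)
        have : ((i + 1 : ℕ) : ℝ) / X - i / X = 1 / X := by push_cast; ring
        rw [this, abs_of_pos (by positivity)]
        ring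
      · refine (abs_add_le _ _).trans (add_le_add ?_ le_rfl)
        rw [abs_of_nonneg (by linarith)]
        linarith
    · rw [abs_mul, abs_of_nonneg (a := (Real.log (i + 1 : ℕ) - Real.log i) / 2) (by linarith)]
      have := mul_le_mul_of_nonneg_right (hK1 ((i : ℝ) / X))
        (show 0 ≤ (Real.log (i + 1 : ℕ) - Real.log i) / 2 by linarith)
      linarith
  have h3 : ∑ i ∈ range ⌊X⌋₊, |G ((i + 1 : ℕ) / X) * (Real.log (i + 1 : ℕ) / 2 + c) -
        G (i / X) * (Real.log i / 2 + c)| ≤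
        K * (Real.log X / 2 + |c|) + K / 2 * Real.log X := by
    refine (sum_le_sum h2).trans ?_
    rw [sum_add_distrib, sum_const, card_range, nsmul_eq_mul, ← mul_sum,
      sum_range_sub (fun i : ℕ => Real.log i)]
    refine add_le_add ?_ ?_
    · have h4 : (⌊X⌋₊ : ℝ) * (K / X) ≤ K := by
        calc (⌊X⌋₊ : ℝ) * (K / X) ≤ X * (K / X) :=
              mul_le_mul_of_nonneg_right hfl (by positivity)
          _ = K := by field_simp
      calc (⌊X⌋₊ : ℝ) * (K / X * (Real.log X / 2 + |c|)) =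
            (⌊X⌋₊ : ℝ) * (K / X) * (Real.log X / 2 + |c|) := by ring
        _ ≤ K * (Real.log X / 2 + |c|) := mul_le_mul_of_nonneg_right h4 (by positivity)
    · rw [Nat.cast_zero, Real.log_zero, sub_zero]
      exact mul_le_mul_of_nonneg_left (hlog _ le_rfl).2 (by positivity)
  nlinarith [mul_nonneg hK hL, mul_nonneg hK (abs_nonneg c)]

/-- the character sums with the weight -/
theorem char_bd (hCHS : T_CHS) (hG : ContDiff ℝ (⊤ : ℕ∞) G)
    (h0 : ∀ u, u ∉ Set.Icc η 1 → G u = 0) :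
    ∃ K : ℝ, 0 < K ∧ ∀ (X : ℝ) (l : ℕ) (c : ℝ), 1 ≤ X → 1 < l → Squarefree l →
      |∑ D ∈ fam X, G (D / X) * (Real.log D / 2 + c) * ∏ p ∈ l.primeFactors, (chi p D : ℝ)| ≤
        K * l * X ^ (3 / 4 : ℝ) * (Real.log X + |c|) := by
  classical
  obtain ⟨K, hK, hK1, hK2⟩ := weight_bd hG h0
  obtain ⟨C, hC, hC1⟩ := hCHS.1
  refine ⟨2 * K * C, by positivity, fun X l c hX hl hsq => ?_⟩
  have hX0 : 0 < X := by linarith
  have hfl : (⌊X⌋₊ : ℝ) ≤ X := Nat.floor_le hX0.le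
  have h1 := abel (fun D : ℕ => G (D / X) * (Real.log D / 2 + c))
    (fun D : ℕ => if Fm D then ∏ p ∈ l.primeFactors, (chi p D : ℝ) else 0) ⌊X⌋₊
    (B := C * l * X ^ (3 / 4 : ℝ)) (by
      intro k hk
      rcases Nat.eq_zero_or_pos k with h | h
      · rw [h]
        simp only [range_zero, sum_empty, abs_zero]
        positivity
      · obtain ⟨j, rfl⟩ : ∃ j, k = j + 1 := ⟨k - 1, by omega⟩
        have h2 := sum_fam (j : ℝ) (fun D => ∏ p ∈ l.primeFactors, (chi p D : ℝ))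
        rw [Nat.floor_natCast] at h2
        rw [← h2]
        rcases Nat.eq_zero_or_pos j with h3 | h3
        · have h4 : fam (j : ℝ) = ∅ := by
            rw [h3]
            unfold fam
            simp
          rw [h4, sum_empty, abs_zero]
          positivity
        · refine (hC1 j l (by exact_mod_cast h3) hl hsq).trans ?_
          have h4 : (j : ℝ) ≤ X := le_trans (by exact_mod_cast (by omega : j ≤ ⌊X⌋₊)) hfl
          have h5 : (j : ℝ) ^ (3 / 4 : ℝ) ≤ X ^ (3 / 4 : ℝ) :=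
            Real.rpow_le_rpow (Nat.cast_nonneg _) h4 (by norm_num)
          exact mul_le_mul_of_nonneg_left h5 (by positivity))
  have h2 := var_bd hK.le hK1 hK2 hX c
  rw [sum_fam]
  have h3 : ∑ D ∈ range (⌊X⌋₊ + 1), (if Fm D then G (D / X) * (Real.log D / 2 + c) *
      ∏ p ∈ l.primeFactors, (chi p D : ℝ) else 0) = ∑ D ∈ range (⌊X⌋₊ + 1),
      G (D / X) * (Real.log D / 2 + c) * (if Fm D then ∏ p ∈ l.primeFactors, (chi p D : ℝ)
        else 0) := by
    refine sum_congr rfl fun D _ => ?_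
    split_ifs
    · rfl
    · rw [mul_zero]
  rw [h3]
  refine h1.trans ?_
  have h4 : 0 ≤ C * l * X ^ (3 / 4 : ℝ) := by positivity
  refine (mul_le_mul_of_nonneg_left h2 h4).trans (le_of_eq ?_)
  ring

/-- Riemann sums -/
theorem riem (hG : ContDiff ℝ (⊤ : ℕ∞) G)
    (h0 : ∀ u, u ∉ Set.Icc η 1 → G u = 0) {K : ℝ} (hK : 0 < K)
    (hK2 : ∀ u v, |G u - G v| ≤ K * |u - v|) {X : ℝ} (hX : 1 ≤ X) :
    |∑ D ∈ range (⌊X⌋₊ + 1), G (D / X) - X * ∫ u in Set.Ioi (0 : ℝ), G u| ≤ 2 * K := by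
  have hX0 : 0 < X := by linarith
  have hfl : (⌊X⌋₊ : ℝ) ≤ X := Nat.floor_le hX0.le
  have hfl2 : X < (⌊X⌋₊ : ℝ) + 1 := Nat.lt_floor_add_one X
  have hint : ∀ a b : ℝ, IntervalIntegrable G MeasureTheory.volume a b := fun a b =>
    hG.continuous.intervalIntegrable _ _
  have h1 : ∫ u in Set.Ioi (0 : ℝ), G u = ∫ u in (0 : ℝ)..((⌊X⌋₊ + 1 : ℕ) / X), G u := by
    rw [intervalIntegral.integral_of_le (by positivity)]
    refine MeasureTheory.setIntegral_eq_of_subset_of_forall_sdiff_eq_zero measurableSet_Ioi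
      (fun u hu => hu.1) fun u hu => h0 u fun hu2 => hu.2 ⟨hu.1, ?_⟩
    refine hu2.2.trans ?_
    rw [le_div_iff₀ hX0, one_mul]
    push_cast
    exact hfl2.le
  have h2 : ∫ u in (0 : ℝ)..((⌊X⌋₊ + 1 : ℕ) / X), G u =
      ∑ i ∈ range (⌊X⌋₊ + 1), ∫ u in ((i : ℕ) / X : ℝ)..((i + 1 : ℕ) / X), G u := by
    have h3 := intervalIntegral.sum_integral_adjacent_intervals (μ := MeasureTheory.volume)
      (f := G) (a := fun i : ℕ => (i : ℝ) / X) (n := ⌊X⌋₊ + 1) (fun k _ => hint _ _)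
    rw [h3]
    simp
  rw [h1, h2, mul_sum, ← sum_sub_distrib]
  have h3 : ∀ i ∈ range (⌊X⌋₊ + 1), |G (i / X) - X * ∫ u in ((i : ℕ) / X : ℝ)..((i + 1 : ℕ) / X),
      G u| ≤ K / X := by
    intro i _
    have hle : (i : ℝ) / X ≤ (i + 1 : ℕ) / X := by
      refine div_le_div_of_nonneg_right ?_ hX0.le
      push_cast
      linarith
    have hd : ((i + 1 : ℕ) : ℝ) / X - i / X = 1 / X := by push_cast; ring
    have h4 : G (i / X) = X * ∫ u in ((i : ℕ) / X : ℝ)..((i + 1 : ℕ) / X), G (i / X) := by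
      rw [intervalIntegral.integral_const, hd, smul_eq_mul]
      field_simp
    have h5 : G (i / X) - X * ∫ u in ((i : ℕ) / X : ℝ)..((i + 1 : ℕ) / X), G u =
        X * ∫ u in ((i : ℕ) / X : ℝ)..((i + 1 : ℕ) / X), (G (i / X) - G u) := by
      rw [intervalIntegral.integral_sub (by simp) (hint _ _), mul_sub, ← h4]
    rw [h5, abs_mul, abs_of_pos hX0]
    have h6 := intervalIntegral.norm_integral_le_of_norm_le_const
      (a := (i : ℝ) / X) (b := ((i + 1 : ℕ) : ℝ) / X) (C := K / X)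
      (f := fun u => G (i / X) - G u) (by
        intro u hu
        rw [Set.uIoc_of_le hle] at hu
        rw [Real.norm_eq_abs]
        refine (hK2 _ _).trans ?_
        have h7 : |(i : ℝ) / X - u| ≤ 1 / X := by
          rw [abs_sub_comm, abs_of_nonneg (by linarith [hu.1])]
          linarith [hu.2]
        calc K * |(i : ℝ) / X - u| ≤ K * (1 / X) := mul_le_mul_of_nonneg_left h7 hK.le
          _ = K / X := by ring)
    rw [hd, abs_of_pos (by positivity), Real.norm_eq_abs] at h6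
    calc X * |∫ u in ((i : ℕ) / X : ℝ)..((i + 1 : ℕ) / X), (G (i / X) - G u)| ≤
        X * (K / X * (1 / X)) := mul_le_mul_of_nonneg_left h6 hX0.le
      _ = K / X := by field_simp
  refine (abs_sum_le_sum_abs _ _).trans ((sum_le_sum h3).trans ?_)
  rw [sum_const, card_range, nsmul_eq_mul]
  push_cast
  have h4 : (⌊X⌋₊ : ℝ) + 1 ≤ 2 * X := by linarith
  calc ((⌊X⌋₊ : ℝ) + 1) * (K / X) ≤ 2 * X * (K / X) :=
        mul_le_mul_of_nonneg_right h4 (by positivity)
    _ = 2 * K := by field_simp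

/-- the sum of the weight over the family -/
theorem count_bd (hCHS : T_CHS) (hG : ContDiff ℝ (⊤ : ℕ∞) G)
    (h0 : ∀ u, u ∉ Set.Icc η 1 → G u = 0) :
    ∃ K : ℝ, 0 < K ∧ ∀ X : ℝ, 1 ≤ X →
      |∑ D ∈ fam X, G (D / X) - 2 / π ^ 2 * (X * ∫ u in Set.Ioi (0 : ℝ), G u)| ≤
        K * X ^ (3 / 4 : ℝ) := by
  classical
  obtain ⟨K, hK, hK1, hK2⟩ := weight_bd hG h0
  obtain ⟨C, hC, hC1⟩ := hCHS.2
  have hπ : (2 : ℝ) / π ^ 2 ≤ 1 := by
    rw [div_le_one (by positivity)]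
    nlinarith [Real.pi_gt_three]
  have hπ0 : (0 : ℝ) ≤ 2 / π ^ 2 := by positivity
  refine ⟨(C + 1) * (2 * K) + 2 * K, by positivity, fun X hX => ?_⟩
  have hX0 : 0 < X := by linarith
  have hfl : (⌊X⌋₊ : ℝ) ≤ X := Nat.floor_le hX0.le
  have hX1 : 1 ≤ X ^ (3 / 4 : ℝ) := Real.one_le_rpow hX (by norm_num)
  have h1 := abel (fun D : ℕ => G (D / X))
    (fun D : ℕ => (if Fm D then (1 : ℝ) else 0) - 2 / π ^ 2) ⌊X⌋₊
    (B := (C + 1) * X ^ (3 / 4 : ℝ)) (by
      intro k hk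
      rcases Nat.eq_zero_or_pos k with h | h
      · rw [h]
        simp only [range_zero, sum_empty, abs_zero]
        positivity
      · obtain ⟨j, rfl⟩ : ∃ j, k = j + 1 := ⟨k - 1, by omega⟩
        have h2 := sum_fam (j : ℝ) (fun _ => (1 : ℝ))
        rw [Nat.floor_natCast, sum_const, nsmul_eq_mul, mul_one] at h2
        rw [sum_sub_distrib, ← h2, sum_const, card_range, nsmul_eq_mul]
        rcases Nat.eq_zero_or_pos j with h3 | h3
        · have h4 : fam (j : ℝ) = ∅ := by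
            rw [h3]
            unfold fam
            simp
          rw [h4, h3, card_empty, abs_sub_comm]
          push_cast
          rw [one_mul, sub_zero, abs_of_nonneg hπ0]
          nlinarith [mul_nonneg hC.le (zero_le_one.trans hX1)]
        · have h5 := hC1 j (by exact_mod_cast h3)
          have h4 : (j : ℝ) ≤ X := le_trans (by exact_mod_cast (by omega : j ≤ ⌊X⌋₊)) hfl
          have h6 : (j : ℝ) ^ (3 / 4 : ℝ) ≤ X ^ (3 / 4 : ℝ) :=
            Real.rpow_le_rpow (Nat.cast_nonneg _) h4 (by norm_num)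
          have h7 : (((fam (j : ℝ)).card : ℝ) - ((j + 1 : ℕ) : ℝ) * (2 / π ^ 2)) =
              (((fam (j : ℝ)).card : ℝ) - 2 / π ^ 2 * j) - 2 / π ^ 2 := by
            push_cast
            ring
          rw [h7]
          refine (abs_sub _ _).trans ?_
          rw [abs_of_nonneg hπ0]
          have h8 : C * (j : ℝ) ^ (3 / 4 : ℝ) ≤ C * X ^ (3 / 4 : ℝ) :=
            mul_le_mul_of_nonneg_left h6 hC.le
          linarith)
  have h2 : |G ((⌊X⌋₊ : ℕ) / X)| + ∑ i ∈ range ⌊X⌋₊, |G ((i + 1 : ℕ) / X) - G (i / X)| ≤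
      2 * K := by
    have h3 : ∀ i ∈ range ⌊X⌋₊, |G ((i + 1 : ℕ) / X) - G (i / X)| ≤ K / X := by
      intro i _
      refine (hK2 _ _).trans (le_of_eq ?_)
      have : ((i + 1 : ℕ) : ℝ) / X - i / X = 1 / X := by push_cast; ring
      rw [this, abs_of_pos (by positivity)]
      ring
    have h4 := sum_le_sum h3
    rw [sum_const, card_range, nsmul_eq_mul] at h4
    have h5 : (⌊X⌋₊ : ℝ) * (K / X) ≤ K := by
      calc (⌊X⌋₊ : ℝ) * (K / X) ≤ X * (K / X) :=
            mul_le_mul_of_nonneg_right hfl (by positivity)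
        _ = K := by field_simp
    have h6 := hK1 ((⌊X⌋₊ : ℕ) / X)
    linarith
  have h3 := riem hG h0 hK hK2 hX
  rw [sum_fam]
  have h4 : ∑ D ∈ range (⌊X⌋₊ + 1), (if Fm D then G (D / X) else 0) =
      ∑ D ∈ range (⌊X⌋₊ + 1), G (D / X) * ((if Fm D then (1 : ℝ) else 0) - 2 / π ^ 2) +
      2 / π ^ 2 * ∑ D ∈ range (⌊X⌋₊ + 1), G (D / X) := by
    rw [mul_sum, ← sum_add_distrib]
    refine sum_congr rfl fun D _ => ?_
    split_ifs <;> ring
  rw [h4, add_sub_assoc, ← mul_sub]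
  refine (abs_add_le _ _).trans ?_
  rw [abs_mul, abs_of_nonneg hπ0]
  have h5 : (C + 1) * X ^ (3 / 4 : ℝ) * (|G ((⌊X⌋₊ : ℕ) / X)| +
      ∑ i ∈ range ⌊X⌋₊, |G ((i + 1 : ℕ) / X) - G (i / X)|) ≤
      (C + 1) * X ^ (3 / 4 : ℝ) * (2 * K) := mul_le_mul_of_nonneg_left h2 (by positivity)
  have h6 : 2 / π ^ 2 * |∑ D ∈ range (⌊X⌋₊ + 1), G (D / X) - X * ∫ u in Set.Ioi (0 : ℝ), G u| ≤
      1 * (2 * K) := mul_le_mul hπ h3 (abs_nonneg _) zero_le_one
  have h7 : 2 * K ≤ 2 * K * X ^ (3 / 4 : ℝ) := by nlinarith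
  have h8 := h1.trans h5
  calc _ ≤ (C + 1) * X ^ (3 / 4 : ℝ) * (2 * K) + 2 * K * X ^ (3 / 4 : ℝ) := by linarith
    _ = _ := by ring

end smooth

end Pool.Agent.H86.CN
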