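import Pool.Agent.H86.CN.SM1A

/-! The first moment, part 2: expansion of the products. -/

set_option autoImplicit false

namespace Pool.Agent.H86.CN

open Finset Pool.Agent.H31.CN
open scoped Real

/-- the product over the primes of `m` -/
theorem prod_one_add {m : ℕ} (hm : Squarefree m) (x : ℕ → ℝ) :
    ∏ p ∈ m.primeFactors, (1 + x p) = ∑ l ∈ m.divisors, ∏ p ∈ l.primeFactors, x p := by
  have hm0 : m ≠ 0 := hm.ne_zero
  have h1 := prod_add x (fun _ => (1 : ℝ)) m.primeFactors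
  have h2 : ∏ p ∈ m.primeFactors, (1 + x p) = ∏ p ∈ m.primeFactors, (x p + 1) :=
    prod_congr rfl fun _ _ => add_comm _ _
  rw [h2, h1]
  simp only [prod_const_one, mul_one]
  refine sum_bij' (fun t _ => ∏ p ∈ t, p) (fun l _ => l.primeFactors) ?_ ?_ ?_ ?_ ?_
  · intro t ht
    rw [Nat.mem_divisors]
    refine ⟨?_, hm0⟩
    have h3 := prod_dvd_prod_of_subset t m.primeFactors (fun p => p) (mem_powerset.1 ht)
    rwa [Nat.prod_primeFactors_of_squarefree hm] at h3
  · intro l hl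
    rw [mem_powerset]
    exact Nat.primeFactors_mono (Nat.mem_divisors.1 hl).1 hm0
  · intro t ht
    exact Nat.primeFactors_prod fun p hp =>
      Nat.prime_of_mem_primeFactors (mem_powerset.1 ht hp)
  · intro l hl
    exact Nat.prod_primeFactors_of_squarefree (hm.squarefree_of_dvd (Nat.mem_divisors.1 hl).1)
  · intro t ht
    have h3 : (∏ p ∈ t, p).primeFactors = t := Nat.primeFactors_prod fun p hp =>
      Nat.prime_of_mem_primeFactors (mem_powerset.1 ht hp)
    simp only [h3]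

/-- the coefficients of the expansion at the primes of `N` -/
noncomputable def cf (N n : ℕ) (t : Finset ℕ) : ℝ :=
  (∏ p ∈ t, if p ∣ n then -(1 / (p : ℝ)) else 1 / p) *
    ∏ p ∈ N.primeFactors \ t, if p ∣ n then -(1 / (p : ℝ)) else 1

theorem cf_abs (N n : ℕ) {t : Finset ℕ} (ht : t ⊆ N.primeFactors) : |cf N n t| ≤ 1 := by
  have h1 : ∀ p ∈ N.primeFactors, (1 : ℝ) / p ≤ 1 ∧ (0 : ℝ) ≤ 1 / p := by
    intro p hp
    have h2 : (1 : ℝ) ≤ p := by exact_mod_cast (Nat.prime_of_mem_primeFactors hp).one_lt.le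
    exact ⟨(div_le_one (by linarith)).2 h2, by positivity⟩
  unfold cf
  rw [abs_mul, abs_prod, abs_prod]
  refine mul_le_one₀ (prod_le_one (fun _ _ => abs_nonneg _) fun p hp => ?_)
    (prod_nonneg fun _ _ => abs_nonneg _) (prod_le_one (fun _ _ => abs_nonneg _) fun p hp => ?_)
  · obtain ⟨h2, h3⟩ := h1 p (ht hp)
    split_ifs
    · rwa [abs_neg, abs_of_nonneg h3]
    · rwa [abs_of_nonneg h3]
  · obtain ⟨h2, h3⟩ := h1 p (mem_sdiff.1 hp).1
    split_ifs
    · rwa [abs_neg, abs_of_nonneg h3]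
    · rw [abs_one]

/-- the product over the primes of `N` -/
theorem prod_small (N n : ℕ) (x : ℕ → ℝ) :
    (∏ p ∈ N.primeFactors, if p ∣ n then -((1 + x p) / p) else 1 + x p / p) =
      ∑ t ∈ N.primeFactors.powerset, cf N n t * ∏ p ∈ t, x p := by
  have h1 := prod_add (fun p : ℕ => (if p ∣ n then -(1 / (p : ℝ)) else 1 / p) * x p)
    (fun p : ℕ => if p ∣ n then -(1 / (p : ℝ)) else 1) N.primeFactors
  have h2 : (∏ p ∈ N.primeFactors, if p ∣ n then -((1 + x p) / p) else 1 + x p / p) =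
      ∏ p ∈ N.primeFactors, ((if p ∣ n then -(1 / (p : ℝ)) else 1 / p) * x p +
        if p ∣ n then -(1 / (p : ℝ)) else 1) := by
    refine prod_congr rfl fun p _ => ?_
    split_ifs <;> ring
  rw [h2, h1]
  refine sum_congr rfl fun t _ => ?_
  rw [prod_mul_distrib]
  unfold cf
  ring

/-- the weighted character sum -/
noncomputable def Wl (G : ℝ → ℝ) (X c : ℝ) (l : ℕ) : ℝ :=
  ∑ D ∈ fam X, G (D / X) * (Real.log D / 2 + c) * ∏ p ∈ l.primeFactors, (chi p D : ℝ)

/-- expansion of the sums over the family -/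
theorem expand {m N : ℕ} (hm : Squarefree m) (hmN : Nat.Coprime m N) (n : ℕ) (G : ℝ → ℝ)
    (X c : ℝ) :
    ∑ D ∈ fam X, G (D / X) * (Real.log D / 2 + c) *
      ((∏ p ∈ m.primeFactors, (1 + (chi p D : ℝ))) *
        ∏ p ∈ N.primeFactors, if p ∣ n then -((1 + (chi p D : ℝ)) / p) else
          1 + (chi p D : ℝ) / p) =
      ∑ l ∈ m.divisors, ∑ t ∈ N.primeFactors.powerset, cf N n t * Wl G X c (l * ∏ p ∈ t, p) := by
  have h1 : ∀ D ∈ fam X, G (D / X) * (Real.log D / 2 + c) *
      ((∏ p ∈ m.primeFactors, (1 + (chi p D : ℝ))) *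
        ∏ p ∈ N.primeFactors, if p ∣ n then -((1 + (chi p D : ℝ)) / p) else
          1 + (chi p D : ℝ) / p) =
      ∑ l ∈ m.divisors, ∑ t ∈ N.primeFactors.powerset, cf N n t *
        (G (D / X) * (Real.log D / 2 + c) *
          ∏ p ∈ (l * ∏ p ∈ t, p).primeFactors, (chi p D : ℝ)) := by
    intro D _
    rw [prod_one_add hm (fun p => (chi p D : ℝ)), prod_small N n (fun p => (chi p D : ℝ)),
      sum_mul_sum, mul_sum]
    refine sum_congr rfl fun l hl => ?_
    rw [mul_sum]
    refine sum_congr rfl fun t ht => ?_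
    have ht' := mem_powerset.1 ht
    have h2 : (∏ p ∈ t, p).primeFactors = t := Nat.primeFactors_prod fun p hp =>
      Nat.prime_of_mem_primeFactors (ht' hp)
    have hcop : Nat.Coprime l (∏ p ∈ t, p) := by
      refine Nat.Coprime.prod_right fun p hp => ?_
      exact Nat.Coprime.coprime_dvd_left (Nat.mem_divisors.1 hl).1
        (Nat.Coprime.coprime_dvd_right (Nat.dvd_of_mem_primeFactors (ht' hp)) hmN)
    have h3 : (l * ∏ p ∈ t, p).primeFactors = l.primeFactors ∪ t := by
      rw [hcop.primeFactors_mul, h2]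
    have h4 : Disjoint l.primeFactors t := by
      have := hcop.disjoint_primeFactors
      rwa [h2] at this
    rw [h3, prod_union h4]
    ring
  rw [sum_congr rfl h1, sum_comm]
  refine sum_congr rfl fun l _ => ?_
  rw [sum_comm]
  refine sum_congr rfl fun t _ => ?_
  unfold Wl
  rw [mul_sum]

/-- the coefficient of the trivial character -/
theorem cf_empty (N n : ℕ) :
    cf N n ∅ = ∏ p ∈ N.primeFactors, if p ∣ n then -(1 / (p : ℝ)) else 1 := by
  unfold cf
  rw [prod_empty, one_mul, sdiff_empty]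

/-- the contribution of the nontrivial characters -/
theorem expand_bd (hCHS : T_CHS) {G : ℝ → ℝ} {η : ℝ} (hG : ContDiff ℝ (⊤ : ℕ∞) G)
    (h0 : ∀ u, u ∉ Set.Icc η 1 → G u = 0) {N : ℕ} (hN : 1 ≤ N) (hNs : Squarefree N) :
    ∃ K : ℝ, 0 < K ∧ ∀ (X c : ℝ) (m n : ℕ), 1 ≤ X → Squarefree m → Nat.Coprime m N →
      |∑ D ∈ fam X, G (D / X) * (Real.log D / 2 + c) *
        ((∏ p ∈ m.primeFactors, (1 + (chi p D : ℝ))) *
          ∏ p ∈ N.primeFactors, if p ∣ n then -((1 + (chi p D : ℝ)) / p) else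
            1 + (chi p D : ℝ) / p) -
        cf N n ∅ * ∑ D ∈ fam X, G (D / X) * (Real.log D / 2 + c)| ≤
        K * (∑ l ∈ m.divisors, (l : ℝ)) * (X ^ (3 / 4 : ℝ) * (Real.log X + |c|)) := by
  classical
  obtain ⟨K, hK, hK1⟩ := char_bd hCHS hG h0
  refine ⟨K * N * 2 ^ N.primeFactors.card, by positivity, fun X c m n hX hm hmN => ?_⟩
  have hL : 0 ≤ Real.log X := Real.log_nonneg hX
  have hX0 : 0 < X := by linarith
  obtain ⟨R, hR⟩ : ∃ R : ℝ, R = X ^ (3 / 4 : ℝ) * (Real.log X + |c|) := ⟨_, rfl⟩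
  have hR0 : 0 ≤ R := by rw [hR]; positivity
  rw [expand hm hmN]
  have h1 : ∑ l ∈ m.divisors, (∑ t ∈ N.primeFactors.powerset,
        if l = 1 ∧ t = ∅ then cf N n t * Wl G X c (l * ∏ p ∈ t, p) else 0) =
      cf N n ∅ * ∑ D ∈ fam X, G (D / X) * (Real.log D / 2 + c) := by
    rw [sum_eq_single_of_mem 1 (Nat.one_mem_divisors.2 hm.ne_zero)
      (fun l _ hl => sum_eq_zero fun t _ => if_neg fun h => hl h.1),
      sum_eq_single_of_mem ∅ (empty_mem_powerset _) (fun t _ ht => if_neg fun h => ht h.2),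
      if_pos ⟨rfl, rfl⟩, prod_empty, mul_one]
    unfold Wl
    simp
  rw [← h1, ← sum_sub_distrib]
  have h2 : ∀ l ∈ m.divisors, |∑ t ∈ N.primeFactors.powerset,
      cf N n t * Wl G X c (l * ∏ p ∈ t, p) - ∑ t ∈ N.primeFactors.powerset,
        if l = 1 ∧ t = ∅ then cf N n t * Wl G X c (l * ∏ p ∈ t, p) else 0| ≤
      K * N * 2 ^ N.primeFactors.card * (l * R) := by
    intro l hl
    rw [← sum_sub_distrib]
    have hl1 : 1 ≤ l := Nat.pos_of_mem_divisors hl
    have h3 : ∀ t ∈ N.primeFactors.powerset, |cf N n t * Wl G X c (l * ∏ p ∈ t, p) -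
        (if l = 1 ∧ t = ∅ then cf N n t * Wl G X c (l * ∏ p ∈ t, p) else 0)| ≤
        K * N * (l * R) := by
      intro t ht
      have ht' := mem_powerset.1 ht
      by_cases h : l = 1 ∧ t = ∅
      · rw [if_pos h, sub_self, abs_zero]
        positivity
      · rw [if_neg h, sub_zero, abs_mul]
        have hdvd : (∏ p ∈ t, p) ∣ N := by
          have h3 := prod_dvd_prod_of_subset t N.primeFactors (fun p => p) ht'
          rwa [Nat.prod_primeFactors_of_squarefree hNs] at h3
        have hpos : 1 ≤ ∏ p ∈ t, p := Nat.pos_of_dvd_of_pos hdvd hN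
        have hle : ∏ p ∈ t, p ≤ N := Nat.le_of_dvd hN hdvd
        have hcop : Nat.Coprime l (∏ p ∈ t, p) :=
          Nat.Coprime.coprime_dvd_left (Nat.mem_divisors.1 hl).1
            (Nat.Coprime.coprime_dvd_right hdvd hmN)
        have hsq : Squarefree (l * ∏ p ∈ t, p) := (Nat.squarefree_mul hcop).2
          ⟨hm.squarefree_of_dvd (Nat.mem_divisors.1 hl).1, hNs.squarefree_of_dvd hdvd⟩
        have hne : l * ∏ p ∈ t, p ≠ 1 := by
          intro h4
          apply h
          refine ⟨Nat.dvd_one.1 ⟨_, h4.symm⟩, ?_⟩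
          have h4' : ∏ p ∈ t, p = 1 := Nat.dvd_one.1 ⟨l, by rw [mul_comm]; exact h4.symm⟩
          have h5 : (∏ p ∈ t, p).primeFactors = t := Nat.primeFactors_prod fun p hp =>
            Nat.prime_of_mem_primeFactors (ht' hp)
          rw [h4', Nat.primeFactors_one] at h5
          exact h5.symm
        have hgt : 1 < l * ∏ p ∈ t, p := by
          have : 0 < l * ∏ p ∈ t, p := Nat.mul_pos hl1 hpos
          omega
        have h6 := hK1 X _ c hX hgt hsq
        have h7 : |Wl G X c (l * ∏ p ∈ t, p)| ≤ K * N * (l * R) := by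
          refine (h6.trans (le_of_eq (mul_assoc _ _ _))).trans ?_
          rw [← hR]
          have h8 : ((l * ∏ p ∈ t, p : ℕ) : ℝ) ≤ l * N := by
            rw [Nat.cast_mul]
            exact mul_le_mul_of_nonneg_left (by exact_mod_cast hle) (Nat.cast_nonneg _)
          calc K * ((l * ∏ p ∈ t, p : ℕ) : ℝ) * R ≤ K * (l * N) * R :=
                mul_le_mul_of_nonneg_right (mul_le_mul_of_nonneg_left h8 hK.le) hR0
            _ = K * N * (l * R) := by ring
        calc |cf N n t| * |Wl G X c (l * ∏ p ∈ t, p)| ≤ 1 * (K * N * (l * R)) :=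
              mul_le_mul (cf_abs N n ht') h7 (abs_nonneg _) zero_le_one
          _ = K * N * (l * R) := one_mul _
    refine (abs_sum_le_sum_abs _ _).trans ((sum_le_sum h3).trans (le_of_eq ?_))
    rw [sum_const, card_powerset, nsmul_eq_mul]
    push_cast
    ring
  refine (abs_sum_le_sum_abs _ _).trans ((sum_le_sum h2).trans (le_of_eq ?_))
  rw [← mul_sum, ← sum_mul, hR]
  ring

/-- the sum of the divisors -/
theorem sigma_le {m : ℕ} (hm : 1 ≤ m) :
    (∑ l ∈ m.divisors, (l : ℝ)) / m ≤ 1 + Real.log m := by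
  have hm0 : (0 : ℝ) < m := by exact_mod_cast hm
  have h1 : (∑ l ∈ m.divisors, (l : ℝ)) / m = ∑ d ∈ m.divisors, 1 / (d : ℝ) := by
    rw [← Nat.sum_div_divisors m (fun l => (l : ℝ)), sum_div]
    refine sum_congr rfl fun d hd => ?_
    have hd0 : (0 : ℝ) < d := by exact_mod_cast Nat.pos_of_mem_divisors hd
    rw [Nat.cast_div (Nat.mem_divisors.1 hd).1 hd0.ne']
    field_simp
  rw [h1]
  have h2 : ∑ d ∈ m.divisors, 1 / (d : ℝ) ≤ ∑ d ∈ Icc 1 m, 1 / (d : ℝ) := by
    refine sum_le_sum_of_subset_of_nonneg (fun d hd => ?_) fun _ _ _ => by positivity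
    rw [mem_Icc]
    exact ⟨Nat.pos_of_mem_divisors hd, Nat.divisor_le hd⟩
  refine h2.trans ?_
  have h3 := harmonic_le_one_add_log m
  rw [harmonic_eq_sum_Icc] at h3
  push_cast at h3
  simpa only [one_div] using h3

end Pool.Agent.H86.CN
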