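import Pool.Agent.H86.CN.SM1B

/-! The first moment, part 3: the main term and the error sum. -/

set_option autoImplicit false

namespace Pool.Agent.H86.CN

open Finset Pool.Agent.H31.CN
open scoped Real

theorem sum_cf_empty {N : ℕ} (hNs : Squarefree N) :
    ∑ n ∈ N.divisors, cf N n ∅ = ∏ p ∈ N.primeFactors, (1 - 1 / (p : ℝ)) := by
  have h1 := prod_one_add hNs (fun p => -(1 / (p : ℝ)))
  have h2 : ∏ p ∈ N.primeFactors, (1 - 1 / (p : ℝ)) =
      ∏ p ∈ N.primeFactors, (1 + -(1 / (p : ℝ))) := prod_congr rfl fun _ _ => by ring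
  rw [h2, h1]
  refine sum_congr rfl fun n hn => ?_
  obtain ⟨hn1, hn2⟩ := Nat.mem_divisors.1 hn
  rw [cf_empty, prod_ite, prod_const_one, mul_one]
  refine prod_congr ?_ fun _ _ => rfl
  ext p
  rw [mem_filter, Nat.mem_primeFactors, Nat.mem_primeFactors]
  constructor
  · rintro ⟨⟨h3, _, _⟩, h4⟩
    exact ⟨h3, h4, fun h => hn2 (by rw [h] at hn1; exact Nat.eq_zero_of_zero_dvd hn1)⟩
  · rintro ⟨h3, h4, _⟩
    exact ⟨⟨h3, h4.trans hn1, hn2⟩, h4⟩

theorem log_split {D n m : ℕ} (hD : 1 ≤ D) (hn : 1 ≤ n) (hm : 1 ≤ m) :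
    Real.log (Real.sqrt D / (n * m)) = Real.log D / 2 - (Real.log n + Real.log m) := by
  have hD0 : (0 : ℝ) < D := by exact_mod_cast hD
  have hn0 : (0 : ℝ) < n := by exact_mod_cast hn
  have hm0 : (0 : ℝ) < m := by exact_mod_cast hm
  rw [Real.log_div (Real.sqrt_ne_zero'.2 hD0) (by positivity), Real.log_sqrt hD0.le,
    Real.log_mul hn0.ne' hm0.ne']

/-- the main term -/
theorem main_bd (hMU3 : T_MU3) (P : Polynomial ℝ) (N : ℕ) (θ η : ℝ)
    (hP : Polynomial.X ^ 5 ∣ P) (hN : 1 ≤ N) (hNs : Squarefree N) (hθ : 0 < θ) (hη : 0 < η) :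
    ∃ C : ℝ, 0 < C ∧ ∀ X : ℝ, 1 ≤ X → 2 ≤ X ^ θ → ∀ D : ℕ, η * X ≤ D → (D : ℝ) ≤ X →
      |∑ m ∈ Icc 1 ⌊X ^ θ⌋₊, ∑ n ∈ N.divisors, cm P (X ^ θ) N m / m * (cf N n ∅ *
        (Real.log D / 2 + (c0 - (Real.log n + Real.log m)))) -
        (P.eval 1 + 1 / (2 * θ) * P.derivative.eval 1)| ≤ C / Real.log (X ^ θ) := by
  obtain ⟨C, hC, hC1⟩ := hMU3 P N (1 / (2 * θ)) (|Real.log η|) hP hN hNs
  obtain ⟨A, hA⟩ : ∃ A : ℝ, A = ∏ p ∈ N.primeFactors, (1 - 1 / (p : ℝ)) := ⟨_, rfl⟩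
  obtain ⟨B, hB⟩ : ∃ B : ℝ, B = ∑ n ∈ N.divisors, cf N n ∅ * (c0 - Real.log n) := ⟨_, rfl⟩
  have hApos : A ≠ 0 := by
    rw [hA]
    refine (prod_ne_zero_iff.2 fun p hp => ?_)
    have h2 : (1 : ℝ) < p := by exact_mod_cast (Nat.prime_of_mem_primeFactors hp).one_lt
    have h3 : (1 : ℝ) / p < 1 := (div_lt_one (by linarith)).2 h2
    linarith
  refine ⟨(|A| + |B| + 1) * C, by positivity, fun X hX hM D hD1 hD2 => ?_⟩
  have hX0 : 0 < X := by linarith
  have hD0 : (0 : ℝ) < D := lt_of_lt_of_le (by positivity) hD1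
  obtain ⟨V, hV⟩ : ∃ V : ℝ, V = P.eval 1 + 1 / (2 * θ) * P.derivative.eval 1 := ⟨_, rfl⟩
  have hlM : 0 < Real.log (X ^ θ) := Real.log_pos (by linarith)
  have hL : |Real.log D / 2 - 1 / (2 * θ) * Real.log (X ^ θ)| ≤ |Real.log η| := by
    rw [Real.log_rpow hX0]
    have h1 : Real.log D / 2 - 1 / (2 * θ) * (θ * Real.log X) =
        (Real.log D - Real.log X) / 2 := by
      field_simp
    rw [h1]
    have h2 : Real.log η + Real.log X ≤ Real.log D := by
      rw [← Real.log_mul hη.ne' hX0.ne']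
      exact Real.log_le_log (by positivity) hD1
    have h3 : Real.log D ≤ Real.log X := Real.log_le_log hD0 hD2
    have h4 := neg_abs_le (Real.log η)
    have h5 := abs_nonneg (Real.log η)
    rw [abs_le]
    constructor <;> linarith
  obtain ⟨h1, h2⟩ := hC1 (X ^ θ) (Real.log D / 2) hM hL
  have h3 : ∑ m ∈ Icc 1 ⌊X ^ θ⌋₊, ∑ n ∈ N.divisors, cm P (X ^ θ) N m / m * (cf N n ∅ *
        (Real.log D / 2 + (c0 - (Real.log n + Real.log m)))) =
      A * ∑ m ∈ Icc 1 ⌊X ^ θ⌋₊, cm P (X ^ θ) N m / m * (Real.log D / 2 - Real.log m) +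
        B * ∑ m ∈ Icc 1 ⌊X ^ θ⌋₊, cm P (X ^ θ) N m / m := by
    rw [mul_sum, mul_sum, ← sum_add_distrib]
    refine sum_congr rfl fun m _ => ?_
    rw [hA, hB, ← sum_cf_empty hNs, sum_mul, sum_mul, ← sum_add_distrib]
    refine sum_congr rfl fun n _ => ?_
    ring
  have hprod : (∏ p ∈ N.primeFactors, (1 - 1 / (p : ℝ))⁻¹) = A⁻¹ := by
    rw [hA, prod_inv_distrib]
  rw [hprod, ← hV] at h2
  rw [h3, ← hV]
  have h4 : A * ∑ m ∈ Icc 1 ⌊X ^ θ⌋₊, cm P (X ^ θ) N m / m * (Real.log D / 2 - Real.log m) +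
        B * ∑ m ∈ Icc 1 ⌊X ^ θ⌋₊, cm P (X ^ θ) N m / m - V =
      A * (∑ m ∈ Icc 1 ⌊X ^ θ⌋₊, cm P (X ^ θ) N m / m * (Real.log D / 2 - Real.log m) -
        A⁻¹ * V) + B * ∑ m ∈ Icc 1 ⌊X ^ θ⌋₊, cm P (X ^ θ) N m / m := by
    rw [mul_sub, mul_inv_cancel_left₀ hApos]
    ring
  rw [h4]
  refine (abs_add_le _ _).trans ?_
  rw [abs_mul, abs_mul]
  have h5 := mul_le_mul_of_nonneg_left h2 (abs_nonneg A)
  have h6 := mul_le_mul_of_nonneg_left h1 (abs_nonneg B)
  have h7 : 0 < C / Real.log (X ^ θ) := div_pos hC hlM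
  calc _ ≤ |A| * (C / Real.log (X ^ θ)) + |B| * (C / Real.log (X ^ θ)) := add_le_add h5 h6
    _ ≤ (|A| + |B| + 1) * (C / Real.log (X ^ θ)) := by nlinarith
    _ = _ := by ring

/-- the error sum -/
theorem err_bd (hCHS : T_CHS) {G : ℝ → ℝ} {η : ℝ} (hG : ContDiff ℝ (⊤ : ℕ∞) G)
    (h0 : ∀ u, u ∉ Set.Icc η 1 → G u = 0) (P : Polynomial ℝ) {N : ℕ} (hN : 1 ≤ N)
    (hNs : Squarefree N) (θ : ℝ) (hθ : 0 < θ) (hθ1 : θ < 1 / 4) :
    ∃ K : ℝ, 0 < K ∧ ∀ X : ℝ, 1 ≤ X → 2 ≤ X ^ θ →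
      |∑ m ∈ Icc 1 ⌊X ^ θ⌋₊, ∑ n ∈ N.divisors, cm P (X ^ θ) N m / m *
        (∑ D ∈ fam X, G (D / X) * (Real.log D / 2 + (c0 - (Real.log n + Real.log m))) *
          ((∏ p ∈ m.primeFactors, (1 + (chi p D : ℝ))) *
            ∏ p ∈ N.primeFactors, if p ∣ n then -((1 + (chi p D : ℝ)) / p) else
              1 + (chi p D : ℝ) / p) -
          cf N n ∅ * ∑ D ∈ fam X, G (D / X) *
            (Real.log D / 2 + (c0 - (Real.log n + Real.log m))))| ≤
        K * (X ^ (θ + 3 / 4) * (1 + Real.log X) ^ 2) := by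
  obtain ⟨K, hK, hK1⟩ := expand_bd hCHS hG h0 hN hNs
  obtain ⟨C, hC, hC1⟩ := Pool.Agent.H50.CN.cm_le P
  obtain ⟨c1, hc1⟩ : ∃ c1 : ℝ, c1 = |c0| + Real.log N + 2 := ⟨_, rfl⟩
  have hlN : 0 ≤ Real.log N := Real.log_nonneg (by exact_mod_cast hN)
  have hc10 : 0 < c1 := by rw [hc1]; positivity
  refine ⟨(N.divisors.card * ((C + 1) * K)) * c1, ?_, fun X hX hM => ?_⟩
  · have : 0 < (N.divisors.card : ℝ) := by
      exact_mod_cast card_pos.2 ⟨1, Nat.one_mem_divisors.2 (by omega)⟩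
    positivity
  have hX0 : 0 < X := by linarith
  have hL : 0 ≤ Real.log X := Real.log_nonneg hX
  have hMX : X ^ θ ≤ X := by
    calc X ^ θ ≤ X ^ (1 : ℝ) := Real.rpow_le_rpow_of_exponent_le hX (by linarith)
      _ = X := Real.rpow_one X
  have hM1 : 1 < X ^ θ := by linarith
  obtain ⟨R, hR⟩ : ∃ R : ℝ, R = X ^ (3 / 4 : ℝ) * (c1 * (1 + Real.log X)) := ⟨_, rfl⟩
  have hR0 : 0 ≤ R := by rw [hR]; positivity
  have h1 : ∀ m ∈ Icc 1 ⌊X ^ θ⌋₊, |∑ n ∈ N.divisors, cm P (X ^ θ) N m / m *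
        (∑ D ∈ fam X, G (D / X) * (Real.log D / 2 + (c0 - (Real.log n + Real.log m))) *
          ((∏ p ∈ m.primeFactors, (1 + (chi p D : ℝ))) *
            ∏ p ∈ N.primeFactors, if p ∣ n then -((1 + (chi p D : ℝ)) / p) else
              1 + (chi p D : ℝ) / p) -
          cf N n ∅ * ∑ D ∈ fam X, G (D / X) *
            (Real.log D / 2 + (c0 - (Real.log n + Real.log m))))| ≤
      N.divisors.card * ((C + 1) * K) * ((1 + Real.log X) * R) := by
    intro m hm
    obtain ⟨hm1, hm2⟩ := mem_Icc.1 hm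
    have hm0 : (0 : ℝ) < m := by exact_mod_cast hm1
    have hmM : (m : ℝ) ≤ X ^ θ := (Nat.le_floor_iff (by positivity)).1 hm2
    have hmX : (m : ℝ) ≤ X := hmM.trans hMX
    refine (abs_sum_le_sum_abs _ _).trans ?_
    have h2 : ∀ n ∈ N.divisors, |cm P (X ^ θ) N m / m *
        (∑ D ∈ fam X, G (D / X) * (Real.log D / 2 + (c0 - (Real.log n + Real.log m))) *
          ((∏ p ∈ m.primeFactors, (1 + (chi p D : ℝ))) *
            ∏ p ∈ N.primeFactors, if p ∣ n then -((1 + (chi p D : ℝ)) / p) else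
              1 + (chi p D : ℝ) / p) -
          cf N n ∅ * ∑ D ∈ fam X, G (D / X) *
            (Real.log D / 2 + (c0 - (Real.log n + Real.log m))))| ≤
        (C + 1) * K * ((1 + Real.log X) * R) := by
      intro n hn
      have hn1 : 1 ≤ n := Nat.pos_of_mem_divisors hn
      have hnN : n ≤ N := Nat.divisor_le hn
      by_cases hcm : cm P (X ^ θ) N m = 0
      · rw [hcm, zero_div, zero_mul, abs_zero]
        positivity
      · have hsq : Squarefree m := by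
          by_contra h
          exact hcm (Pool.Agent.H50.CN.cm_sq P _ N m h)
        have hco : Nat.Coprime m N := by
          by_contra h
          apply hcm
          unfold cm
          rw [if_neg fun h2 => h h2.2]
        have h3 := hK1 X (c0 - (Real.log n + Real.log m)) m n hX hsq hco
        have hln : 0 ≤ Real.log n := Real.log_nonneg (by exact_mod_cast hn1)
        have hlm : 0 ≤ Real.log m := Real.log_nonneg (by exact_mod_cast hm1)
        have hln2 : Real.log n ≤ Real.log N :=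
          Real.log_le_log (by exact_mod_cast hn1) (by exact_mod_cast hnN)
        have hlm2 : Real.log m ≤ Real.log X := Real.log_le_log hm0 hmX
        have h4 : |c0 - (Real.log n + Real.log m)| ≤ |c0| + (Real.log N + Real.log X) := by
          refine (abs_sub _ _).trans (add_le_add le_rfl ?_)
          rw [abs_of_nonneg (by linarith)]
          linarith
        have h5 : Real.log X + |c0 - (Real.log n + Real.log m)| ≤ c1 * (1 + Real.log X) := by
          rw [hc1]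
          nlinarith [mul_nonneg (abs_nonneg c0) hL, mul_nonneg hlN hL]
        have h6 : X ^ (3 / 4 : ℝ) * (Real.log X + |c0 - (Real.log n + Real.log m)|) ≤ R := by
          rw [hR]
          exact mul_le_mul_of_nonneg_left h5 (by positivity)
        have hσ0 : 0 ≤ ∑ l ∈ m.divisors, (l : ℝ) := sum_nonneg fun _ _ => Nat.cast_nonneg _
        have h7 := h3.trans (mul_le_mul_of_nonneg_left h6 (mul_nonneg hK.le hσ0))
        rw [abs_mul, abs_div, abs_of_pos hm0]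
        have h8 : |cm P (X ^ θ) N m| ≤ C + 1 := (hC1 (X ^ θ) N m hM1 hm1).trans (by linarith)
        have h9 := sigma_le hm1
        have h10 : (∑ l ∈ m.divisors, (l : ℝ)) / m ≤ 1 + Real.log X := h9.trans (by linarith)
        calc _ ≤ (C + 1) / m * (K * (∑ l ∈ m.divisors, (l : ℝ)) * R) :=
              mul_le_mul (div_le_div_of_nonneg_right h8 hm0.le) h7 (abs_nonneg _)
                (by positivity)
          _ = (C + 1) * K * ((∑ l ∈ m.divisors, (l : ℝ)) / m * R) := by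
              field_simp
          _ ≤ (C + 1) * K * ((1 + Real.log X) * R) :=
              mul_le_mul_of_nonneg_left (mul_le_mul_of_nonneg_right h10 hR0) (by positivity)
    refine (sum_le_sum h2).trans (le_of_eq ?_)
    rw [sum_const, nsmul_eq_mul]
    ring
  refine (abs_sum_le_sum_abs _ _).trans ((sum_le_sum h1).trans ?_)
  rw [sum_const, nsmul_eq_mul, Nat.card_Icc, Nat.add_sub_cancel]
  have h2 : ((⌊X ^ θ⌋₊ : ℕ) : ℝ) ≤ X ^ θ := Nat.floor_le (by positivity)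
  calc ((⌊X ^ θ⌋₊ : ℕ) : ℝ) * (N.divisors.card * ((C + 1) * K) * ((1 + Real.log X) * R)) ≤
      X ^ θ * (N.divisors.card * ((C + 1) * K) * ((1 + Real.log X) * R)) :=
        mul_le_mul_of_nonneg_right h2 (by positivity)
    _ = (N.divisors.card * ((C + 1) * K)) * c1 *
        (X ^ (θ + 3 / 4) * (1 + Real.log X) ^ 2) := by
        rw [hR, Real.rpow_add hX0]
        ring

end Pool.Agent.H86.CN
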